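import Pool.Agent.Helper85.BHW.Defs

set_option autoImplicit false
open scoped Pointwise
open MeasureTheory Module Set

namespace Pool.Agent.Helper90.BHW

open Pool.Agent.Helper85.BHW

section fiber

variable {ι : Type} [Fintype ι]

/-- the unit box -/
def box (ι : Type) : Set (ι → ℝ) := {w | ∀ j, w j ∈ Set.Ico (0:ℝ) 1}

/-- integer vectors -/
def czz (z : ι → ℤ) : ι → ℝ := fun j => (z j : ℝ)

theorem box_eq [Finite ι] : box ι = ZSpan.fundamentalDomain (Pi.basisFun ℝ ι) := by
  ext w
  simp [box, ZSpan.mem_fundamentalDomain]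

theorem mem_span_iff (v : ι → ℝ) :
    v ∈ Submodule.span ℤ (Set.range (Pi.basisFun ℝ ι)) ↔ ∃ z : ι → ℤ, v = czz z := by
  classical
  rw [Basis.mem_span_iff_repr_mem]
  constructor
  · intro h
    choose z hz using h
    exact ⟨z, by ext j; simpa [czz] using (hz j).symm⟩
  · rintro ⟨z, rfl⟩ j
    exact ⟨z j, by simp [czz]⟩

/-- A periodic measurable set has the same measure in the box and after a translation. -/
theorem periodic_translate (P : Set (ι → ℝ)) (hP : MeasurableSet P)
    (hper : ∀ (z : ι → ℤ) (w : ι → ℝ), w ∈ P → w + czz z ∈ P) (c : ι → ℝ) :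
    volume ({w | w + c ∈ P} ∩ box ι) = volume (P ∩ box ι) := by
  classical
  set L : AddSubgroup (ι → ℝ) :=
    (Submodule.span ℤ (Set.range (Pi.basisFun ℝ ι))).toAddSubgroup with hL
  have h1 : IsAddFundamentalDomain L (box ι) (volume : Measure (ι → ℝ)) := by
    rw [box_eq]
    exact ZSpan.isAddFundamentalDomain' (Pi.basisFun ℝ ι) volume
  have : Countable L := inferInstanceAs
    (Countable (Submodule.span ℤ (Set.range (Pi.basisFun ℝ ι))))
  have h2 : IsAddFundamentalDomain L (c +ᵥ box ι) (volume : Measure (ι → ℝ)) :=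
    h1.vadd_of_comm c
  have h3 := h1.measure_set_eq h2 hP (by
    rintro ⟨g, hg⟩
    obtain ⟨z, rfl⟩ := (mem_span_iff g).mp hg
    ext w
    constructor
    · intro hw
      have h5 : czz z + w ∈ P := hw
      have h6 := hper (-z) _ h5
      have he : czz z + w + czz (-z) = w := by
        ext j
        simp [czz]
      rwa [he] at h6
    · intro hw
      have h6 := hper z _ hw
      show czz z + w ∈ P
      rwa [add_comm])
  rw [h3]
  have h4 : P ∩ (c +ᵥ box ι) = c +ᵥ ({w | w + c ∈ P} ∩ box ι) := by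
    ext w
    constructor
    · rintro ⟨hw, v, hv, rfl⟩
      refine ⟨v, ⟨?_, hv⟩, rfl⟩
      show v + c ∈ P
      have : v + c = c +ᵥ v := by rw [vadd_eq_add, add_comm]
      rw [this]; exact hw
    · rintro ⟨v, ⟨hv1, hv2⟩, rfl⟩
      refine ⟨?_, v, hv2, rfl⟩
      show c +ᵥ v ∈ P
      rw [vadd_eq_add, add_comm]; exact hv1
  rw [h4, measure_vadd]

end fiber

section main

variable {n : ℕ} (i : ℕ)

/-- gluing of the first `i` coordinates and the others -/
def glue (w : {j : Fin n // (j : ℕ) < i} → ℝ) (y : {j : Fin n // ¬ (j : ℕ) < i} → ℝ) :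
    Fin n → ℝ := fun j => if h : (j : ℕ) < i then w ⟨j, h⟩ else y ⟨j, h⟩

theorem glue_add (w w' : {j : Fin n // (j : ℕ) < i} → ℝ) (y y' : {j : Fin n // ¬ (j : ℕ) < i} → ℝ) :
    glue i (w + w') (y + y') = glue i w y + glue i w' y' := by
  ext j
  by_cases h : (j : ℕ) < i <;> simp [glue, h]

theorem glue_smul (r : ℝ) (w : {j : Fin n // (j : ℕ) < i} → ℝ)
    (y : {j : Fin n // ¬ (j : ℕ) < i} → ℝ) :
    glue i (r • w) (r • y) = r • glue i w y := by
  ext j
  by_cases h : (j : ℕ) < i <;> simp [glue, h]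

theorem glue_eta (x : Fin n → ℝ) : glue i (fun j => x j) (fun j => x j) = x := by
  ext j
  by_cases h : (j : ℕ) < i <;> simp [glue, h]

/-- the periodised fibre -/
def fib (A : Set (Fin n → ℝ)) (y : {j : Fin n // ¬ (j : ℕ) < i} → ℝ) :
    Set ({j : Fin n // (j : ℕ) < i} → ℝ) :=
  {w | ∃ z : {j : Fin n // (j : ℕ) < i} → ℤ, glue i (w + czz z) y ∈ A}

theorem measurable_glue : Measurable (fun q : ({j : Fin n // (j : ℕ) < i} → ℝ) ×
    ({j : Fin n // ¬ (j : ℕ) < i} → ℝ) => glue i q.1 q.2) := by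
  refine measurable_pi_lambda _ fun j => ?_
  by_cases h : (j : ℕ) < i
  · have : (fun q : ({j : Fin n // (j : ℕ) < i} → ℝ) ×
        ({j : Fin n // ¬ (j : ℕ) < i} → ℝ) => glue i q.1 q.2 j) = fun q => q.1 ⟨j, h⟩ := by
      ext q; simp [glue, h]
    rw [this]
    fun_prop
  · have : (fun q : ({j : Fin n // (j : ℕ) < i} → ℝ) ×
        ({j : Fin n // ¬ (j : ℕ) < i} → ℝ) => glue i q.1 q.2 j) = fun q => q.2 ⟨j, h⟩ := by
      ext q; simp [glue, h]
    rw [this]
    fun_prop

theorem measurableSet_per {A : Set (Fin n → ℝ)} (hA : MeasurableSet A) :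
    MeasurableSet (per i A) := by
  have h1 : per i A = {x | ∀ j : Fin n, (j : ℕ) < i → x j ∈ Set.Ico (0:ℝ) 1} ∩
      ⋃ (z : Fin n → ℤ) (_ : ∀ j : Fin n, i ≤ (j : ℕ) → z j = 0), {x | x + cz z ∈ A} := by
    ext x
    simp only [per, mem_ofPred_eq, mem_inter_iff, mem_iUnion, exists_prop]
  rw [h1]
  refine MeasurableSet.inter ?_ ?_
  · have h2 : {x : Fin n → ℝ | ∀ j : Fin n, (j : ℕ) < i → x j ∈ Set.Ico (0:ℝ) 1} =
        ⋂ (j : Fin n) (_ : (j : ℕ) < i), {x | x j ∈ Set.Ico (0:ℝ) 1} := by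
      ext x; simp
    rw [h2]
    refine MeasurableSet.iInter fun j => MeasurableSet.iInter fun _ => ?_
    exact measurableSet_Ico.preimage (measurable_pi_apply j)
  · refine MeasurableSet.iUnion fun z => MeasurableSet.iUnion fun _ => ?_
    exact hA.preimage (measurable_id.add_const _)

theorem measurableSet_fib {A : Set (Fin n → ℝ)} (hA : MeasurableSet A)
    (y : {j : Fin n // ¬ (j : ℕ) < i} → ℝ) : MeasurableSet (fib i A y) := by
  have h1 : fib i A y = ⋃ z : {j : Fin n // (j : ℕ) < i} → ℤ,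
      {w | glue i (w + czz z) y ∈ A} := by
    ext w; simp [fib]
  rw [h1]
  refine MeasurableSet.iUnion fun z => ?_
  refine hA.preimage ?_
  exact (measurable_glue i).comp ((measurable_id.add_const _).prodMk measurable_const)

theorem fib_periodic (A : Set (Fin n → ℝ)) (y : {j : Fin n // ¬ (j : ℕ) < i} → ℝ)
    (z : {j : Fin n // (j : ℕ) < i} → ℤ) (w : {j : Fin n // (j : ℕ) < i} → ℝ)
    (hw : w ∈ fib i A y) : w + czz z ∈ fib i A y := by
  obtain ⟨z', hz'⟩ := hw
  refine ⟨z' - z, ?_⟩
  have : w + czz z + czz (z' - z) = w + czz z' := by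
    ext j; simp [czz]
  rw [this]
  exact hz'

theorem glue_mem_per (A : Set (Fin n → ℝ)) (w : {j : Fin n // (j : ℕ) < i} → ℝ)
    (y : {j : Fin n // ¬ (j : ℕ) < i} → ℝ) :
    glue i w y ∈ per i A ↔ w ∈ fib i A y ∩ box _ := by
  constructor
  · rintro ⟨h1, z, hz, h2⟩
    refine ⟨⟨fun j => z j, ?_⟩, fun j => ?_⟩
    · have : glue i (w + czz (fun j : {j : Fin n // (j : ℕ) < i} => z j)) y
          = glue i w y + cz z := by
        ext j
        by_cases h : (j : ℕ) < i
        · simp [glue, h, cz, czz]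
        · simp [glue, h, cz, hz j (not_lt.mp h)]
      rw [this]
      exact h2
    · have := h1 j j.2
      simpa [glue, j.2] using this
  · rintro ⟨⟨z, hz⟩, hw⟩
    refine ⟨fun j hj => by simpa [glue, hj] using hw ⟨j, hj⟩,
      fun j => if h : (j : ℕ) < i then z ⟨j, h⟩ else 0, fun j hj => by simp [not_lt.mpr hj], ?_⟩
    have : glue i w y + cz (fun j : Fin n => if h : (j : ℕ) < i then z ⟨j, h⟩ else 0)
        = glue i (w + czz z) y := by
      ext j
      by_cases h : (j : ℕ) < i
      · simp [glue, h, cz, czz]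
      · simp [glue, h, cz]
    rw [this]
    exact hz

theorem vol_per {A : Set (Fin n → ℝ)} (hA : MeasurableSet A) :
    volume (per i A) = ∫⁻ y, volume (fib i A y ∩ box _) := by
  have h1 := (volume_preserving_piEquivPiSubtypeProd (fun _ : Fin n => ℝ)
    (fun j : Fin n => (j : ℕ) < i)).symm
  have h2 := h1.measure_preimage (measurableSet_per i hA).nullMeasurableSet
  rw [← h2, Measure.volume_eq_prod, Measure.prod_apply_symm
    ((measurableSet_per i hA).preimage (MeasurableEquiv.measurable _))]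
  refine lintegral_congr fun y => ?_
  congr 1
  ext w
  rw [← glue_mem_per]
  rfl

theorem fib_le (K : Set (Fin n → ℝ)) (hc : Convex ℝ K) (s t : ℝ)
    (ht : 0 < t) (hts : t ≤ s) (hKs : MeasurableSet (s • K))
    (y : {j : Fin n // ¬ (j : ℕ) < i} → ℝ) :
    volume (fib i (t • K) y ∩ box _) ≤ volume (fib i (s • K) ((s / t) • y) ∩ box _) := by
  by_cases hne : (fib i (t • K) y).Nonempty
  · obtain ⟨w0, z0, hw0⟩ := hne
    obtain ⟨k0, hk0, he0⟩ := hw0
    have hs : 0 < s := lt_of_lt_of_le ht hts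
    set c : {j : Fin n // (j : ℕ) < i} → ℝ := ((s - t) / t) • (w0 + czz z0) with hcdef
    rw [← periodic_translate (fib i (s • K) ((s / t) • y)) (measurableSet_fib i hKs _)
      (fun z w hw => fib_periodic i _ _ z w hw) c]
    refine measure_mono ?_
    rintro w ⟨⟨z, hz⟩, hwb⟩
    refine ⟨⟨z, ?_⟩, hwb⟩
    obtain ⟨k, hk, he⟩ := hz
    have h1 : w + c + czz z = (w + czz z) + ((s - t) / t) • (w0 + czz z0) := by
      rw [hcdef]; abel
    have h2 : (s / t) • y = y + ((s - t) / t) • y := by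
      have h3 : s / t = 1 + (s - t) / t := by field_simp; ring
      rw [h3, add_smul, one_smul]
    rw [h1, h2, glue_add, glue_smul, ← he, ← he0]
    refine ⟨(t / s) • k + ((s - t) / s) • k0, ?_, ?_⟩
    · refine hc hk hk0 (by positivity) (div_nonneg (by linarith) hs.le) ?_
      field_simp
      ring
    · simp only [smul_add, smul_smul]
      congr 2
      · field_simp
      · field_simp
  · rw [Set.not_nonempty_iff_eq_empty.mp hne]
    simp

theorem dilate (hi : i ≤ n) (K : Set (Fin n → ℝ)) (hc : Convex ℝ K)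
    (hK : IsClosed K) (s t : ℝ) (ht : 0 < t) (hts : t ≤ s) :
    ENNReal.ofReal ((s / t) ^ (n - i)) * volume (per i (t • K)) ≤ volume (per i (s • K)) := by
  have hs : 0 < s := lt_of_lt_of_le ht hts
  have hKt : MeasurableSet (t • K) := (hK.smul_of_ne_zero ht.ne').measurableSet
  have hKs : MeasurableSet (s • K) := (hK.smul_of_ne_zero hs.ne').measurableSet
  rw [vol_per i hKt, vol_per i hKs]
  have hr : 0 < s / t := div_pos hs ht
  have hcard : finrank ℝ ({j : Fin n // ¬ (j : ℕ) < i} → ℝ) = n - i := by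
    rw [Module.finrank_fintype_fun_eq_card, Fintype.card_subtype_compl, Fintype.card_fin]
    congr 1
    have e : {j : Fin n // (j : ℕ) < i} ≃ Fin i :=
      { toFun := fun j => ⟨j.1, j.2⟩
        invFun := fun j => ⟨⟨j.1, lt_of_lt_of_le j.2 hi⟩, j.2⟩
        left_inv := fun j => rfl
        right_inv := fun j => rfl }
    rw [Fintype.card_congr e, Fintype.card_fin]
  have h1 : ∫⁻ y, volume (fib i (s • K) ((s / t) • y) ∩ box _) =
      ENNReal.ofReal (|((s / t) ^ (n - i))⁻¹|) * ∫⁻ y, volume (fib i (s • K) y ∩ box _) := by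
    have h2 := Measure.map_addHaar_smul
      (volume : Measure ({j : Fin n // ¬ (j : ℕ) < i} → ℝ)) hr.ne'
    rw [hcard] at h2
    have h3 : ∫⁻ y, volume (fib i (s • K) ((s / t) • y) ∩ box _) =
        ∫⁻ y, volume (fib i (s • K) y ∩ box _)
          ∂(Measure.map ((s / t) • ·) (volume : Measure ({j : Fin n // ¬ (j : ℕ) < i} → ℝ))) := by
      have hme : MeasurableEmbedding (fun y : {j : Fin n // ¬ (j : ℕ) < i} → ℝ => (s / t) • y) :=
        (MeasurableEquiv.smul₀ (s / t) hr.ne').measurableEmbedding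
      exact (hme.lintegral_map (μ := volume)
        (fun y => volume (fib i (s • K) y ∩ box {j : Fin n // (j : ℕ) < i}))).symm
    rw [h3, h2, lintegral_smul_measure]
    rfl
  calc ENNReal.ofReal ((s / t) ^ (n - i)) * ∫⁻ y, volume (fib i (t • K) y ∩ box _)
      ≤ ENNReal.ofReal ((s / t) ^ (n - i)) *
        ∫⁻ y, volume (fib i (s • K) ((s / t) • y) ∩ box _) := by
        refine mul_le_mul' le_rfl (lintegral_mono fun y => ?_)
        exact fib_le i K hc s t ht hts hKs y
    _ = ∫⁻ y, volume (fib i (s • K) y ∩ box _) := by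
        rw [h1, ← mul_assoc, ← ENNReal.ofReal_mul (by positivity)]
        rw [abs_of_pos (by positivity), mul_inv_cancel₀ (by positivity)]
        simp

end main

end Pool.Agent.Helper90.BHW
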