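import Pool.Agent.Helper85.BHW.Defs

set_option autoImplicit false
open scoped Pointwise
open MeasureTheory Module

namespace Pool.Agent.Helper90.BHW

theorem adapted_basis (d : ℕ) (M : Type) [AddCommGroup M] [Module.Free ℤ M]
    [Module.Finite ℤ M] (hd : finrank ℤ M = d) (S : Fin d → Submodule ℤ M) (hmono : Monotone S)
    (hS : ∀ i, finrank ℤ (S i) ≤ (i : ℕ)) :
    ∃ β : Basis (Fin d) ℤ M, ∀ i, ∀ z ∈ S i, ∀ j, i ≤ j → β.repr z j = 0 := by
  induction d generalizing M with
  | zero => exact ⟨finBasisOfFinrankEq ℤ M hd, fun i => i.elim0⟩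
  | succ d ih =>
    -- Smith normal form of the largest submodule
    let b0 : Basis (Fin (d + 1)) ℤ M := finBasisOfFinrankEq ℤ M hd
    obtain ⟨n, snf⟩ := (S (Fin.last d)).smithNormalForm b0
    have hn : n ≤ d := by
      have h1 := hS (Fin.last d)
      rw [finrank_eq_card_basis snf.bN, Fintype.card_fin] at h1
      simpa using h1
    obtain ⟨k, hk⟩ : ∃ k, k ∉ Set.range snf.f := by
      by_contra hcon
      push Not at hcon
      have h1 : Function.Surjective snf.f := hcon
      have h2 := Fintype.card_le_of_surjective _ h1
      simp only [Fintype.card_fin] at h2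
      omega
    have hle := snf.le_ker_coord_of_notMem_range hk
    set f : M →ₗ[ℤ] ℤ := snf.bM.coord k with hf
    set y : M := snf.bM k with hy
    have hfy : f y = 1 := by simp [hf, hy]
    set N : Submodule ℤ M := LinearMap.ker f with hN
    have hsurj : Function.Surjective f := fun c => ⟨c • y, by rw [map_smul, hfy]; simp⟩
    have hNd : finrank ℤ N = d := by
      have h1 := Submodule.finrank_quotient_add_finrank N
      have h2 : finrank ℤ (M ⧸ N) = 1 := by
        rw [LinearEquiv.finrank_eq (f.quotKerEquivOfSurjective hsurj)]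
        simp
      omega
    obtain ⟨β', hβ'⟩ := ih N hNd (fun i => (S i.castSucc).comap N.subtype)
      (fun i j hij => Submodule.comap_mono (hmono (Fin.castSucc_le_castSucc_iff.mpr hij)))
      (fun i => by
        refine le_trans ?_ (hS i.castSucc)
        refine LinearMap.finrank_le_finrank_of_injective
          (f := N.subtype.restrict (p := (S i.castSucc).comap N.subtype) (q := S i.castSucc)
            (fun z hz => hz)) ?_
        intro a b hab
        have h3 : N.subtype a.1 = N.subtype b.1 := by
          have h4 := Subtype.ext_iff.mp hab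
          simpa using h4
        exact Subtype.ext (Subtype.ext h3))
    have hli : ∀ (c : ℤ), ∀ x ∈ N, c • y + x = 0 → c = 0 := by
      intro c x hx h
      have h1 := congrArg f h
      rw [map_add, map_smul, hfy, LinearMap.mem_ker.mp hx] at h1
      simpa using h1
    have hsp : ∀ z : M, ∃ c : ℤ, z + c • y ∈ N := by
      intro z
      refine ⟨-f z, ?_⟩
      rw [hN, LinearMap.mem_ker, map_add, map_smul, hfy]
      simp
    let b := Basis.mkFinCons y β' hli hsp
    have hb : (b : Fin (d + 1) → M) = Fin.cons y ((↑) ∘ β') := Basis.coe_mkFinCons y β' hli hsp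
    have hrepr : ∀ z : N, b.repr (z : M) 0 = 0 ∧ ∀ i : Fin d, b.repr (z : M) i.succ = β'.repr z i := by
      intro z
      have h1 : (z : M) = ∑ j : Fin (d + 1), (Fin.cons 0 (fun i => β'.repr z i) : Fin (d + 1) → ℤ) j
          • b j := by
        rw [Fin.sum_univ_succ, hb]
        simp only [Fin.cons_zero, zero_smul, zero_add, Fin.cons_succ, Function.comp]
        calc (z : M) = N.subtype (∑ i, β'.repr z i • β' i) := by rw [β'.sum_repr]; rfl
          _ = ∑ i, β'.repr z i • (β' i : M) := by
            rw [map_sum]
            exact Finset.sum_congr rfl fun i _ => by rw [map_smul]; rfl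
      have h2 : ⇑(b.repr (z : M)) = (Fin.cons 0 (fun i => β'.repr z i) : Fin (d + 1) → ℤ) := by
        conv_lhs => rw [h1]
        exact b.repr_sum_self _
      rw [h2]
      constructor
      · simp
      · intro i; simp
    refine ⟨b.reindex (finRotate (d + 1)).symm, ?_⟩
    intro i z hz j hij
    have hzN : z ∈ N := hle (hmono (Fin.le_last i) hz)
    obtain ⟨h0, h1⟩ := hrepr ⟨z, hzN⟩
    rw [Basis.repr_reindex_apply]
    rw [Equiv.symm_symm]
    induction j using Fin.lastCases with
    | last => simpa using h0
    | cast j =>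
      have hi : i ≠ Fin.last d := by
        rintro rfl
        exact absurd hij (not_le.mpr (Fin.castSucc_lt_last j))
      obtain ⟨i', rfl⟩ := Fin.exists_castSucc_eq.mpr hi
      have h2 := hβ' i' ⟨z, hzN⟩ hz j (Fin.castSucc_le_castSucc_iff.mp hij)
      have h3 : finRotate (d + 1) j.castSucc = j.succ := by
        simp
      rw [h3]
      exact (h1 j).trans h2

end Pool.Agent.Helper90.BHW
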